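import Pool.Agent.helper78.FS.Spec

/-!
# Project fs: (MP_55808c_co), module CYA: the algebra of mod 2 cycles
-/

namespace Pool.Agent.helper78.FS

open Finset Real
open Classical

theorem CYA_card {α : Type} [DecidableEq α] (A B : Finset α) : (symmDiff A B).card + 2 * (A ∩ B).card = A.card + B.card := by
  have h1 := Finset.card_sdiff_add_card_inter A B
  have h2 := Finset.card_sdiff_add_card_inter B A
  have h3 : (symmDiff A B).card = (A \ B).card + (B \ A).card := by
    rw [symmDiff_def, Finset.sup_eq_union, Finset.card_union_of_disjoint]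
    exact disjoint_sdiff_sdiff
  rw [Finset.inter_comm B A] at h2
  omega

theorem CYA_even {α : Type} [DecidableEq α] (A B : Finset α) (hA : Even A.card) (hB : Even B.card) : Even (symmDiff A B).card := by
  have h1 := CYA_card A B
  rw [Nat.even_iff] at hA hB ⊢
  omega

theorem CYA_sum {α : Type} [DecidableEq α] (Ω : α → ZMod 2) (A B : Finset α) : ∑ x ∈ symmDiff A B, Ω x = ∑ x ∈ A, Ω x + ∑ x ∈ B, Ω x := by
  have h3 : ∑ x ∈ symmDiff A B, Ω x = ∑ x ∈ A \ B, Ω x + ∑ x ∈ B \ A, Ω x := by
    rw [symmDiff_def, Finset.sup_eq_union, Finset.sum_union]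
    exact disjoint_sdiff_sdiff
  have h1 : ∑ x ∈ A, Ω x = ∑ x ∈ A ∩ B, Ω x + ∑ x ∈ A \ B, Ω x := (Finset.sum_inter_add_sum_sdiff A B Ω).symm
  have h2 : ∑ x ∈ B, Ω x = ∑ x ∈ A ∩ B, Ω x + ∑ x ∈ B \ A, Ω x := by
    rw [Finset.inter_comm]
    exact (Finset.sum_inter_add_sum_sdiff B A Ω).symm
  have h4 : ∑ x ∈ A ∩ B, Ω x + ∑ x ∈ A ∩ B, Ω x = 0 := CharTwo.add_self_eq_zero _
  rw [h3, h1, h2]
  linear_combination -h4

/-- CYA: the algebra of mod 2 cycles. -/
theorem CYA : CYA_stmt := by
  intro V _ G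
  refine ⟨fun z z' hz hz' => ⟨fun τ hτ => ?_, fun e he => ?_⟩, fun Ω z z' => CYA_sum Ω z z', fun Q hQ hC => ⟨fun τ hτ => ?_, fun e he => ?_⟩⟩
  · rw [Finset.mem_symmDiff] at hτ
    rcases hτ with h | h
    · exact hz.1 τ h.1
    · exact hz'.1 τ h.1
  · have h1 : (symmDiff z z').filter (fun τ => e ⊆ τ) = symmDiff (z.filter (fun τ => e ⊆ τ)) (z'.filter (fun τ => e ⊆ τ)) := by
      ext τ
      simp only [Finset.mem_filter, Finset.mem_symmDiff]
      tauto
    rw [h1]
    exact CYA_even _ _ (hz.2 e he) (hz'.2 e he)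
  · rw [Finset.mem_powersetCard] at hτ
    exact ⟨hτ.2, fun a ha b hb hab => hC a (hτ.1 ha) b (hτ.1 hb) hab⟩
  · by_cases heQ : e ⊆ Q
    · have h1 : (Q.powersetCard 3).filter (fun τ => e ⊆ τ) = (Q \ e).image (fun x => insert x e) := by
        ext τ
        simp only [Finset.mem_filter, Finset.mem_powersetCard, Finset.mem_image, Finset.mem_sdiff]
        constructor
        · rintro ⟨⟨h1, h2⟩, h3⟩
          obtain ⟨x, hx, hxe⟩ := Finset.exists_eq_insert_iff.2 ⟨h3, by rw [he, h2]⟩
          refine ⟨x, ⟨h1 ?_, hx⟩, hxe⟩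
          rw [← hxe]
          exact Finset.mem_insert_self _ _
        · rintro ⟨x, ⟨h1, h2⟩, rfl⟩
          refine ⟨⟨Finset.insert_subset h1 heQ, ?_⟩, Finset.subset_insert _ _⟩
          rw [Finset.card_insert_of_notMem h2, he]
      have h2 : ((Q \ e).image (fun x => insert x e)).card = (Q \ e).card := by
        apply Finset.card_image_of_injOn
        intro x hx y hy hxy
        have hx' : x ∉ e := (Finset.mem_sdiff.1 hx).2
        simp only at hxy
        have h3 : x ∈ insert y e := by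
          rw [← hxy]
          exact Finset.mem_insert_self _ _
        rcases Finset.mem_insert.1 h3 with h | h
        · exact h
        · exact absurd h hx'
      rw [h1, h2, Finset.card_sdiff_of_subset heQ, hQ, he]
      exact ⟨1, rfl⟩
    · have h1 : (Q.powersetCard 3).filter (fun τ => e ⊆ τ) = ∅ := by
        rw [Finset.filter_eq_empty_iff]
        intro τ hτ h
        exact heQ (h.trans (Finset.mem_powersetCard.1 hτ).1)
      rw [h1, Finset.card_empty]
      exact ⟨0, rfl⟩

end Pool.Agent.helper78.FS
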