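import Pool.Agent.helper78.FS.Spec

/-!
# Project fs: (MP_55808c_co), module GPK: few grid points near a point far from the poles
-/

namespace Pool.Agent.helper78.FS

open Finset Real
open Classical

theorem GPK_nrm (a : E3) (r : ℝ) (ha : ‖a‖ = r) : a 0 ^ 2 + a 1 ^ 2 + a 2 ^ 2 = r ^ 2 := by
  rw [← ha, EuclideanSpace.norm_sq_eq, Fin.sum_univ_three]
  simp only [Real.norm_eq_abs, sq_abs]

theorem GPK_dst (a b : E3) : dist a b ^ 2 = (a 0 - b 0) ^ 2 + (a 1 - b 1) ^ 2 + (a 2 - b 2) ^ 2 := by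
  rw [EuclideanSpace.dist_eq, Real.sq_sqrt (Finset.sum_nonneg fun i _ => sq_nonneg _), Fin.sum_univ_three]
  simp only [Real.dist_eq, sq_abs]

theorem GPK_pol (t r : ℝ) (a : E3) (ha : ‖a‖ = r) : dist a (Nt r t) ^ 2 = 2 * r * (r - zc t a) ∧ dist a (-Nt r t) ^ 2 = 2 * r * (r + zc t a) := by
  have hn := GPK_nrm a r ha
  have hcs := Real.sin_sq_add_cos_sq t
  constructor
  · rw [GPK_dst]
    unfold Nt zc
    simp
    linear_combination hn + r ^ 2 * hcs
  · rw [GPK_dst]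
    unfold Nt zc
    simp
    linear_combination hn + r ^ 2 * hcs

/-- the sine of the colatitude. -/
theorem GPK_sin (κ c s : ℝ) (hs : 0 ≤ s) (hcs : s ^ 2 + c ^ 2 = 1) (h1 : κ ^ 2 / 8 ≤ 1 - c) (h2 : κ ^ 2 / 8 ≤ 1 + c) : κ / 4 ≤ s := by
  have h3 : (κ / 4) ^ 2 ≤ s ^ 2 := by
    rcases le_total 0 c with hc | hc
    · nlinarith
    · nlinarith
  exact (abs_le_of_sq_le_sq' h3 hs).2

/-- GPK: few grid points near a point far from the poles. -/
theorem GPK : GPK_stmt := by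
  intro hGCO hGSP hPKG t r κ D n _ b hr hκ hκ1 hD hDr hN hS
  have hn : (0 : ℝ) < n := Nat.cast_pos.2 (Nat.pos_of_ne_zero (NeZero.ne n))
  set F := ((Finset.univ : Finset (ZMod (2 * n))) ×ˢ range (n + 1)).filter (fun p => dist (gr t r n p.1 p.2) b ≤ D) with hF
  have hsin : ∀ p ∈ F, p.2 ≤ n ∧ dist (gr t r n p.1 p.2) b ≤ D ∧ κ / 4 ≤ sin (p.2 * π / n) := by
    intro p hp
    rw [hF, Finset.mem_filter, Finset.mem_product, Finset.mem_range] at hp
    have hpn : p.2 ≤ n := by omega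
    refine ⟨hpn, hp.2, ?_⟩
    obtain ⟨-, -, g3, g4, -, -⟩ := hGCO t r n hr.le p.1 p.2
    obtain ⟨p1, p2⟩ := GPK_pol t r _ g4
    rw [g3] at p1 p2
    have hb := hp.2
    rw [dist_comm] at hb
    have d1 : κ * r / 2 ≤ dist (gr t r n p.1 p.2) (Nt r t) := by
      have := dist_triangle b (gr t r n p.1 p.2) (Nt r t)
      linarith
    have d2 : κ * r / 2 ≤ dist (gr t r n p.1 p.2) (-Nt r t) := by
      have := dist_triangle b (gr t r n p.1 p.2) (-Nt r t)
      linarith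
    have hkr : 0 < κ * r := mul_pos hκ hr
    have e1 : (κ * r / 2) ^ 2 ≤ 2 * r * (r - r * cos (p.2 * π / n)) := by
      rw [← p1]
      exact pow_le_pow_left₀ (by linarith) d1 2
    have e2 : (κ * r / 2) ^ 2 ≤ 2 * r * (r + r * cos (p.2 * π / n)) := by
      rw [← p2]
      exact pow_le_pow_left₀ (by linarith) d2 2
    have hr2 : 0 < r ^ 2 := by positivity
    have hθ : 0 ≤ sin (p.2 * π / n) := by
      apply Real.sin_nonneg_of_nonneg_of_le_pi
      · positivity
      · rw [div_le_iff₀ hn]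
        have : (p.2 : ℝ) ≤ n := by exact_mod_cast hpn
        nlinarith [Real.pi_pos]
    refine GPK_sin κ (cos (p.2 * π / n)) _ hθ (Real.sin_sq_add_cos_sq _) ?_ ?_
    · have h3 : r ^ 2 * (κ ^ 2 / 8) ≤ r ^ 2 * (1 - cos (p.2 * π / n)) := by linarith
      exact le_of_mul_le_mul_left h3 hr2
    · have h3 : r ^ 2 * (κ ^ 2 / 8) ≤ r ^ 2 * (1 + cos (p.2 * π / n)) := by linarith
      exact le_of_mul_le_mul_left h3 hr2
  have hsep : ∀ p ∈ F, ∀ q ∈ F, p ≠ q → κ * r / (2 * n) ≤ dist (gr t r n p.1 p.2) (gr t r n q.1 q.2) := by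
    intro p hp q hq hne
    have h1 := hGSP t r (κ / 4) n hr (by linarith) (by linarith) p.1 q.1 p.2 q.2 (hsin p hp).1 (hsin q hq).1 (hsin p hp).2.2 hne
    refine le_trans (le_of_eq ?_) h1
    field_simp
    ring
  have hs0 : 0 < κ * r / (2 * n) := by positivity
  have hinj : Set.InjOn (fun p : ZMod (2 * n) × ℕ => gr t r n p.1 p.2) F := by
    intro p hp q hq h
    by_contra hne
    have h1 := hsep p hp q hq hne
    simp only at h
    rw [h, dist_self] at h1
    linarith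
  have h1 := hPKG b D (κ * r / (2 * n)) hD hs0 (F.image (fun p : ZMod (2 * n) × ℕ => gr t r n p.1 p.2)) (by
    intro x hx
    obtain ⟨p, hp, rfl⟩ := Finset.mem_image.1 hx
    exact (hsin p hp).2.1) (by
    intro x hx y hy hxy
    obtain ⟨p, hp, rfl⟩ := Finset.mem_image.1 hx
    obtain ⟨q, hq, rfl⟩ := Finset.mem_image.1 hy
    exact hsep p hp q hq (fun h => hxy (by rw [h])))
  rw [Finset.card_image_of_injOn hinj] at h1
  have h2 : 4 * D / (κ * r / (2 * n)) = 8 * D * n / (κ * r) := by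
    field_simp
    ring
  rw [h2] at h1
  exact h1

end Pool.Agent.helper78.FS
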