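import Pool.Agent.helper78.FS.Spec

/-!
# Project fs: (MP_55808c_co), module MRG: merging balls
-/

namespace Pool.Agent.helper78.FS

open Finset Real
open Classical

theorem MRG_aux : ∀ (n : ℕ) (P : Finset E3), P.card = n → ∀ R0 : ℝ, 0 < R0 → ∃ R : ℝ, R0 ≤ R ∧ R ≤ 3 ^ n * R0 ∧
    ∃ Q : Finset E3, Q ⊆ P ∧ (∀ p ∈ P, ∃ q ∈ Q, dist p q + R0 ≤ R) ∧ ∀ q ∈ Q, ∀ q' ∈ Q, q ≠ q' → 2 * R < dist q q' := by
  intro n
  induction n with
  | zero =>
    intro P hP R0 hR
    have h1 : P = ∅ := Finset.card_eq_zero.1 hP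
    subst h1
    exact ⟨R0, le_refl _, by simp, ∅, Finset.Subset.refl _, by simp, by simp⟩
  | succ n ih =>
    intro P hP R0 hR
    by_cases hs : ∀ p ∈ P, ∀ p' ∈ P, p ≠ p' → 2 * R0 < dist p p'
    · have h3 : (1 : ℝ) ≤ 3 ^ (n + 1) := one_le_pow₀ (by norm_num)
      refine ⟨R0, le_refl _, by nlinarith, P, Finset.Subset.refl _, fun p hp => ⟨p, hp, ?_⟩, hs⟩
      rw [dist_self, zero_add]
    · push Not at hs
      obtain ⟨p, hp, p', hp', hne, hd⟩ := hs
      have hc : (P.erase p').card = n := by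
        rw [Finset.card_erase_of_mem hp', hP, Nat.add_sub_cancel]
      obtain ⟨R, h1, h2, Q, h3, h4, h5⟩ := ih (P.erase p') hc (3 * R0) (by linarith)
      refine ⟨R, by linarith, ?_, Q, h3.trans (Finset.erase_subset _ _), ?_, h5⟩
      · rw [pow_succ]
        linarith
      · intro x hx
        by_cases hxp : x = p'
        · subst hxp
          obtain ⟨q, hq, hq2⟩ := h4 p (Finset.mem_erase.2 ⟨hne, hp⟩)
          refine ⟨q, hq, ?_⟩
          have h6 := dist_triangle x p q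
          rw [dist_comm x p] at h6
          linarith
        · obtain ⟨q, hq, hq2⟩ := h4 x (Finset.mem_erase.2 ⟨hxp, hx⟩)
          exact ⟨q, hq, by linarith⟩

/-- MRG: merging balls. -/
theorem MRG : MRG_stmt := by
  intro P R0 hR
  exact MRG_aux P.card P rfl R0 hR

end Pool.Agent.helper78.FS
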