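import Pool.Agent.helper78.FS.Spec

/-!
# Project fs: (MP_55808c_co), module NEA: the cochain lives near the pole
-/

namespace Pool.Agent.helper78.FS

open Finset Real
open Classical

theorem NEA_nrm (a : E3) (r : ℝ) (ha : ‖a‖ = r) : a 0 ^ 2 + a 1 ^ 2 + a 2 ^ 2 = r ^ 2 := by
  rw [← ha, EuclideanSpace.norm_sq_eq, Fin.sum_univ_three]
  simp only [Real.norm_eq_abs, sq_abs]

theorem NEA_dst (a b : E3) : dist a b ^ 2 = (a 0 - b 0) ^ 2 + (a 1 - b 1) ^ 2 + (a 2 - b 2) ^ 2 := by
  rw [EuclideanSpace.dist_eq, Real.sq_sqrt (Finset.sum_nonneg fun i _ => sq_nonneg _), Fin.sum_univ_three]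
  simp only [Real.dist_eq, sq_abs]

/-- NEA: the cochain lives near the pole. -/
theorem NEA : NEA_stmt := by
  intro hAX t L r a b c hL hr ha hab hac hom
  have hz : 0 < zc t a ∧ 0 < zc t b ∧ 0 < zc t c := by
    by_contra h
    exact hom (if_neg h)
  have hd : dkap t a b c ≠ 0 := by
    intro h
    apply hom
    unfold om
    rw [if_pos hz, h]
  have hy : |yc a| ≤ L := by
    by_contra h
    push Not at h
    exact hd (hAX t L a b c hab hac (Or.inl h))
  have hx : |xc t a| ≤ L := by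
    by_contra h
    push Not at h
    exact hd (hAX t L a b c hab hac (Or.inr h))
  have hn := NEA_nrm a r ha
  have hcs := Real.sin_sq_add_cos_sq t
  have h1 : xc t a ^ 2 + yc a ^ 2 + zc t a ^ 2 = r ^ 2 := by
    unfold xc yc zc
    linear_combination hn + (a 0 ^ 2 + a 2 ^ 2) * hcs
  have h2 : dist a (Nt r t) ^ 2 = 2 * r * (r - zc t a) := by
    rw [NEA_dst]
    unfold Nt zc
    simp
    linear_combination hn + r ^ 2 * hcs
  have hx2 : xc t a ^ 2 ≤ L ^ 2 := sq_le_sq' (by linarith [neg_abs_le (xc t a)]) (by linarith [le_abs_self (xc t a)])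
  have hy2 : yc a ^ 2 ≤ L ^ 2 := sq_le_sq' (by linarith [neg_abs_le (yc a)]) (by linarith [le_abs_self (yc a)])
  have hz0 := hz.1
  have hzr : zc t a ≤ r := by
    nlinarith [sq_nonneg (xc t a), sq_nonneg (yc a)]
  have h3 : dist a (Nt r t) ^ 2 ≤ (2 * L) ^ 2 := by
    rw [h2]
    nlinarith
  exact abs_le_of_sq_le_sq' h3 (by linarith) |>.2

end Pool.Agent.helper78.FS
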