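import Pool.Agent.helper52.FS.SpecD

/-!
# Row fs:POR (MP_07c750, project FS): porosity at all scales
-/

open scoped MatrixGroups ContDiff Topology UpperHalfPlane ComplexConjugate
open UpperHalfPlane MeasureTheory Filter Set

set_option autoImplicit false

namespace Pool.Agent.FS

open Pool.Agent.RS
open Pool.Agent.MS (bq BB BA SF pf)
open Pool.Agent.EN (XG MG mkX mkM fl pr)

noncomputable section

/-- a small open set all of whose points have small leaf segments inside `O` -/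
theorem POR_open (hGLC : RS.GLC_stmt) (hXFL : EN.XFL_stmt) (Γ : Subgroup SL(2, ℝ))
    (O : Set (XG Γ)) (hO : IsOpen O) (hne : O.Nonempty) :
    ∃ (O3 : Set (XG Γ)) (c1 : ℝ), IsOpen O3 ∧ O3.Nonempty ∧ 0 < c1 ∧
      ∀ (k : SL(2, ℝ)) (w : ℝ), mkX Γ k ∈ O3 → |w| ≤ c1 →
        mkX Γ (k * lM w) ∈ O ∧ mkX Γ (k * nM w) ∈ O := by
  obtain ⟨-, -, -, -, hcn, hcl, -, -, -, -, -, hnadd, hladd, -⟩ := hGLC
  obtain ⟨-, -, hcX, hoX, hsX, -, -, -, -, -, heq, -⟩ := hXFL Γ
  have hl0 : lM 0 = 1 := by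
    have := hladd 0 0
    rw [add_zero] at this
    exact (mul_eq_left.mp this.symm)
  have hn0 : nM 0 = 1 := by
    have := hnadd 0 0
    rw [add_zero] at this
    exact (mul_eq_left.mp this.symm)
  obtain ⟨x0, hx0⟩ := hne
  obtain ⟨y0, rfl⟩ := hsX x0
  have hf1 : Continuous (fun p : SL(2, ℝ) × ℝ => mkX Γ (p.1 * lM p.2)) :=
    hcX.comp (continuous_fst.mul (hcl.comp continuous_snd))
  have hf2 : Continuous (fun p : SL(2, ℝ) × ℝ => mkX Γ (p.1 * nM p.2)) :=
    hcX.comp (continuous_fst.mul (hcn.comp continuous_snd))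
  have hW : IsOpen ((fun p : SL(2, ℝ) × ℝ => mkX Γ (p.1 * lM p.2)) ⁻¹' O ∩
      (fun p : SL(2, ℝ) × ℝ => mkX Γ (p.1 * nM p.2)) ⁻¹' O) :=
    (hO.preimage hf1).inter (hO.preimage hf2)
  have hmem : ((y0, 0) : SL(2, ℝ) × ℝ) ∈ ((fun p : SL(2, ℝ) × ℝ => mkX Γ (p.1 * lM p.2)) ⁻¹' O ∩
      (fun p : SL(2, ℝ) × ℝ => mkX Γ (p.1 * nM p.2)) ⁻¹' O) := by
    constructor
    · show mkX Γ (y0 * lM 0) ∈ O
      rw [hl0, mul_one]; exact hx0
    · show mkX Γ (y0 * nM 0) ∈ O
      rw [hn0, mul_one]; exact hx0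
  have hnb := hW.mem_nhds hmem
  rw [nhds_prod_eq, Filter.mem_prod_iff] at hnb
  obtain ⟨U1, hU1, V1, hV1, hUV⟩ := hnb
  obtain ⟨U, hUU, hUo, hyU⟩ := mem_nhds_iff.mp hU1
  obtain ⟨ε, hε, hball⟩ := Metric.mem_nhds_iff.mp hV1
  refine ⟨mkX Γ '' U, ε / 2, hoX U hUo, ⟨mkX Γ y0, ⟨y0, hyU, rfl⟩⟩, by positivity, ?_⟩
  rintro k w ⟨k', hk', hkk⟩ hw
  obtain ⟨γ, hγ⟩ := (heq k' k).mp hkk
  have hw' : w ∈ V1 := by
    apply hball
    rw [Metric.mem_ball, Real.dist_eq, sub_zero]
    linarith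
  have hp : ((k', w) : SL(2, ℝ) × ℝ) ∈ U1 ×ˢ V1 := ⟨hUU hk', hw'⟩
  have h2 := hUV hp
  have e1 : mkX Γ (k * lM w) = mkX Γ (k' * lM w) := by
    symm
    rw [heq]
    exact ⟨γ, by rw [← mul_assoc, hγ]⟩
  have e2 : mkX Γ (k * nM w) = mkX Γ (k' * nM w) := by
    symm
    rw [heq]
    exact ⟨γ, by rw [← mul_assoc, hγ]⟩
  rw [e1, e2]
  exact ⟨h2.1, h2.2⟩

theorem POR_proof (h : UDP_stmt) (hGLC : RS.GLC_stmt) (hXFL : EN.XFL_stmt) : POR_stmt := by
  intro Γ O hΓ hO hne
  obtain ⟨O3, c1, hO3, hne3, hc1, hkey⟩ := POR_open hGLC hXFL Γ O hO hne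
  obtain ⟨T, hT, hUDP⟩ := h Γ O3 hΓ hO3 hne3
  obtain ⟨-, -, -, -, -, -, -, -, -, -, haadd, hnadd, hladd, -, -, -, -, hna, hla, -⟩ := hGLC
  have hcpos : 0 < min (1 / 2) (c1 * Real.exp (-T)) := by
    apply lt_min (by norm_num) (mul_pos hc1 (Real.exp_pos _))
  refine ⟨min (1 / 2) (c1 * Real.exp (-T)), Real.exp (T + 1), hcpos,
    lt_of_le_of_lt (min_le_left _ _) (by norm_num), Real.one_le_exp (by linarith), ?_⟩
  intro n g r v hr hr1
  have hrpos : 0 < r := lt_of_lt_of_le (mul_pos (Real.exp_pos _) (Real.exp_pos _)) hr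
  set i : ℝ := -Real.log r with hi
  have hri : r = Real.exp (-i) := by
    rw [hi, neg_neg, Real.exp_log hrpos]
  have hi0 : 0 ≤ i := by
    rw [hi]
    have := Real.log_nonpos hrpos.le hr1
    linarith
  have hi1 : i + T ≤ n - 1 := by
    rw [hri, ← Real.exp_add, Real.exp_le_exp] at hr
    linarith
  -- the size estimate
  have hsz : ∀ (t x w : ℝ), t ≤ T →
      w ∈ Ioo (x - min (1 / 2) (c1 * Real.exp (-T)) * r) (x + min (1 / 2) (c1 * Real.exp (-T)) * r) →
      |Real.exp (i + t) * (w - x)| ≤ c1 := by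
    intro t x w ht hw
    have h1 : |w - x| ≤ min (1 / 2) (c1 * Real.exp (-T)) * r := by
      rw [abs_le]
      exact ⟨by linarith [hw.1], by linarith [hw.2]⟩
    have h2 : |w - x| ≤ c1 * Real.exp (-T) * r :=
      h1.trans (mul_le_mul_of_nonneg_right (min_le_right _ _) hrpos.le)
    rw [abs_mul, abs_of_pos (Real.exp_pos _)]
    calc Real.exp (i + t) * |w - x| ≤ Real.exp (i + T) * (c1 * Real.exp (-T) * r) := by
          apply mul_le_mul _ h2 (abs_nonneg _) (Real.exp_pos _).le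
          exact Real.exp_le_exp.mpr (by linarith)
      _ = c1 * (Real.exp (i + T) * Real.exp (-T) * Real.exp (-i)) := by rw [hri]; ring
      _ = c1 := by
          rw [← Real.exp_add, ← Real.exp_add]
          have : i + T + -T + -i = 0 := by ring
          rw [this, Real.exp_zero, mul_one]
  constructor
  · obtain ⟨⟨u, hu, t, ht, hut⟩, -⟩ := hUDP (g * lM v * aM i)
    refine ⟨v + r * u, ⟨by nlinarith [hu.1, mul_nonneg hrpos.le hu.1], ?_⟩, ?_⟩
    · have := mul_le_mul_of_nonneg_left hu.2 hrpos.le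
      linarith
    · intro w hw
      refine ⟨i + t, ⟨by linarith [ht.1], by linarith [ht.2]⟩, ?_⟩
      have e1 : g * lM v * aM i * lM u * aM t = g * lM (v + r * u) * aM (i + t) := by
        have e2 : aM i * lM u = lM (r * u) * aM i := by
          rw [hla (r * u) i, hri, ← mul_assoc, ← Real.exp_add]
          have : i + -i = 0 := by ring
          rw [this, Real.exp_zero, one_mul]
        rw [haadd, hladd, mul_assoc (g * lM v) (aM i) (lM u), e2]
        simp only [mul_assoc]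
      rw [e1] at hut
      have e3 : g * lM w * aM (i + t) = g * lM (v + r * u) * aM (i + t) *
          lM (Real.exp (i + t) * (w - (v + r * u))) := by
        rw [mul_assoc (g * lM (v + r * u)) (aM (i + t)), ← hla, ← mul_assoc,
          mul_assoc g (lM (v + r * u)), ← hladd]
        have : v + r * u + (w - (v + r * u)) = w := by ring
        rw [this]
      rw [e3]
      exact (hkey _ _ hut (hsz t _ w ht.2 hw)).1
  · obtain ⟨-, ⟨u, hu, t, ht, hut⟩⟩ := hUDP (g * nM v * aM (-i))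
    refine ⟨v + r * u, ⟨by nlinarith [hu.1, mul_nonneg hrpos.le hu.1], ?_⟩, ?_⟩
    · have := mul_le_mul_of_nonneg_left hu.2 hrpos.le
      linarith
    · intro w hw
      refine ⟨i + t, ⟨by linarith [ht.1], by linarith [ht.2]⟩, ?_⟩
      have e1 : g * nM v * aM (-i) * nM u * aM (-t) = g * nM (v + r * u) * aM (-(i + t)) := by
        have e2 : aM (-i) * nM u = nM (r * u) * aM (-i) := by
          rw [hna (r * u) (-i), hri, ← mul_assoc, ← Real.exp_add]
          have : - -i + -i = 0 := by ring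
          rw [this, Real.exp_zero, one_mul]
        have e4 : -(i + t) = -i + -t := by ring
        rw [e4, haadd, hnadd, mul_assoc (g * nM v) (aM (-i)) (nM u), e2]
        simp only [mul_assoc]
      rw [e1] at hut
      have e3 : g * nM w * aM (-(i + t)) = g * nM (v + r * u) * aM (-(i + t)) *
          nM (Real.exp (i + t) * (w - (v + r * u))) := by
        have e5 : Real.exp (i + t) * (w - (v + r * u)) = Real.exp (- -(i + t)) * (w - (v + r * u)) := by
          rw [neg_neg]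
        rw [e5, mul_assoc (g * nM (v + r * u)) (aM (-(i + t))), ← hna, ← mul_assoc,
          mul_assoc g (nM (v + r * u)), ← hnadd]
        have : v + r * u + (w - (v + r * u)) = w := by ring
        rw [this]
      rw [e3]
      exact (hkey _ _ hut (hsz t _ w ht.2 hw)).2

end

end Pool.Agent.FS
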