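import Pool.Agent.helper78.FS.Spec

/-!
# Project fs: (MP_55808c_co), module SBC: a minimal cycle has no proper sub-cycle
-/

namespace Pool.Agent.helper78.FS

open Finset Real
open Classical

/-- SBC: a minimal cycle has no proper sub-cycle. -/
theorem SBC : SBC_stmt := by
  intro hCYA V _ G Ω z y hz hy hyz
  obtain ⟨c1, c2, -⟩ := hCYA V G
  obtain ⟨z1, z2, z3⟩ := hz
  have h1 : symmDiff z y = z \ y := by
    rw [symmDiff_def, Finset.sup_eq_union, Finset.sdiff_eq_empty_iff_subset.2 hyz, Finset.union_empty]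
  have hcy : Cyc G (z \ y) := by
    rw [← h1]
    exact c1 z y z1 hy
  have hwt : wt Ω (z \ y) = 1 + wt Ω y := by
    rw [← h1, c2, z2]
  have h01 : wt Ω y = 0 ∨ wt Ω y = 1 := by
    generalize wt Ω y = a
    revert a
    decide
  rcases h01 with h | h
  · left
    have h2 := z3 (z \ y) hcy (by rw [hwt, h, add_zero])
    have h3 : z \ y = z := Finset.eq_of_subset_of_card_le Finset.sdiff_subset h2
    rw [Finset.sdiff_eq_self_iff_disjoint] at h3
    rw [← Finset.inter_eq_right.2 hyz]
    exact Finset.disjoint_iff_inter_eq_empty.1 h3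
  · right
    exact Finset.eq_of_subset_of_card_le hyz (z3 y hy h)

end Pool.Agent.helper78.FS
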